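import Pool.Agent.Helper69.BQ.St.B

/-!
# Project BQ, piece B3: `leg_core`, `neg_sq_not_nm`, `norm_isNm`
-/

namespace Pool.Agent.Helper71.BQ

open Module NumberField Pool.Agent.Helper25.Biq Pool.Agent.Helper69.BQ

section rational

variable {p : ℕ}

/-- B3. The Legendre condition at a prime dividing `d1` and `d2` exactly once. -/
lemma leg_core (hp : p.Prime) (hp2 : p ≠ 2) {d1 d2 d3 : ℤ} (h1 : (p : ℤ) ∣ d1)
    (h1' : ¬ (p : ℤ) ^ 2 ∣ d1) (h2 : (p : ℤ) ∣ d2) (h2' : ¬ (p : ℤ) ^ 2 ∣ d2)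
    (h3 : ¬ (p : ℤ) ∣ d3) (hd : ∃ e : ℤ, e ≠ 0 ∧ d1 * d2 = d3 * e ^ 2)
    {g1 g2 g3 c1 c3 : ℚ} (hg1 : g1 ≠ 0) (hg2 : g2 ≠ 0) (hg3 : g3 ≠ 0)
    (n1 : IsNm d1 g1) (n2 : IsNm d2 g2) (n3 : IsNm d3 g3)
    (hc1 : ∃ q : ℚ, q ≠ 0 ∧ c1 = g2 * g3 * q ^ 2) (hc3 : ∃ q : ℚ, q ≠ 0 ∧ c3 = g1 * g2 * q ^ 2)
    (hv : vv p c3 = 0) : xx p c3 = xx p ((d3 : ℤ) : ℚ) * vv p c1 := by
  obtain ⟨q, hq0, rfl⟩ := hc1
  obtain ⟨r, hr0, rfl⟩ := hc3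
  obtain ⟨e, he0, he⟩ := hd
  have hd1 : d1 ≠ 0 := fun h => h1' (h ▸ dvd_zero _)
  have hd2 : d2 ≠ 0 := fun h => h2' (h ▸ dvd_zero _)
  have hd3 : d3 ≠ 0 := fun h => h3 (h ▸ dvd_zero _)
  have hd1q : ((-d1 : ℤ) : ℚ) ≠ 0 := by exact_mod_cast neg_ne_zero.mpr hd1
  have hd2q : ((-d2 : ℤ) : ℚ) ≠ 0 := by exact_mod_cast neg_ne_zero.mpr hd2
  have hd3q : ((d3 : ℤ) : ℚ) ≠ 0 := by exact_mod_cast hd3
  have heq : ((e : ℤ) : ℚ) ≠ 0 := by exact_mod_cast he0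
  have e1 := nm_ram hp hp2 h1 h1' hg1 n1
  have e2 := nm_ram hp hp2 h2 h2' hg2 n2
  have e3 := nm_unram hp hp2 h3 hg3 n3
  have key : xx p ((-d1 : ℤ) : ℚ) + xx p ((-d2 : ℤ) : ℚ) = xx p ((d3 : ℤ) : ℚ) := by
    rw [← xx_mul hp hp2 hd1q hd2q]
    have : ((-d1 : ℤ) : ℚ) * ((-d2 : ℤ) : ℚ) = ((d3 : ℤ) : ℚ) * ((e : ℤ) : ℚ) ^ 2 := by
      have : (-d1) * (-d2) = d3 * e ^ 2 := by rw [neg_mul_neg]; exact he
      exact_mod_cast this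
    rw [this, xx_mul hp hp2 hd3q (pow_ne_zero 2 heq), xx_sq hp hp2 heq, add_zero]
  have v3 : vv p (g1 * g2 * r ^ 2) = vv p g1 + vv p g2 := by
    rw [vv_mul hp (mul_ne_zero hg1 hg2) (pow_ne_zero 2 hr0), vv_mul hp hg1 hg2, vv_sq hp hr0,
      add_zero]
  have v1 : vv p (g2 * g3 * q ^ 2) = vv p g2 + vv p g3 := by
    rw [vv_mul hp (mul_ne_zero hg2 hg3) (pow_ne_zero 2 hq0), vv_mul hp hg2 hg3, vv_sq hp hq0,
      add_zero]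
  have x3 : xx p (g1 * g2 * r ^ 2) = xx p g1 + xx p g2 := by
    rw [xx_mul hp hp2 (mul_ne_zero hg1 hg2) (pow_ne_zero 2 hr0), xx_mul hp hp2 hg1 hg2,
      xx_sq hp hp2 hr0, add_zero]
  rw [v3] at hv
  have h12 : vv p g1 = vv p g2 := CharTwo.add_eq_zero.mp hv
  rw [x3, v1, e1, e2, h12, mul_add, e3, add_zero, ← add_mul, key]

/-- B4. -/
lemma neg_sq_not_nm {q : ℕ} (hq : q.Prime) (hq4 : q % 4 = 3) {d : ℤ} (hd : (q : ℤ) ∣ d)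
    (hd2 : ¬ (q : ℤ) ^ 2 ∣ d) {n : ℚ} (hn : n ≠ 0) : ¬ IsNm d (-n ^ 2) := by
  intro h
  have hq2 : q ≠ 2 := by rintro rfl; norm_num at hq4
  have hn2 : n ^ 2 ≠ 0 := pow_ne_zero 2 hn
  have h1 := nm_ram hq hq2 hd hd2 (neg_ne_zero.mpr hn2) h
  rw [vv_neg, vv_sq hq hn, mul_zero] at h1
  have h2 : xx q (-n ^ 2) = 1 := by
    rw [show -n ^ 2 = (-1) * n ^ 2 by ring, xx_mul hq hq2 (by norm_num) hn2, xx_sq hq hq2 hn,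
      xx_neg_one hq hq4, add_zero]
  rw [h2] at h1
  exact one_ne_zero h1

end rational

section field

variable {K : Type} [Field K] [NumberField K] [IsGalois ℚ K] {g12 g13 g23 : ℤ}

/-- B6. The norm of an element fixed by `σ` is a value of the norm form. -/
lemma norm_isNm (D : Dat K g12 g13 g23) (hA : Arith g12 g13 g23) {β : K} (h : D.σ β = β) :
    ∃ g : ℚ, β * D.τ β = algebraMap ℚ K g ∧ IsNm (g12 * g13) g := by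
  obtain ⟨x, y, hxy⟩ := fix_form D hA h
  refine ⟨x ^ 2 - ((g12 * g13 : ℤ) : ℚ) * y ^ 2, ?_, x, y, rfl⟩
  have hq := D.q1
  rw [hxy]
  simp only [map_add, map_mul, AlgEquiv.commutes, D.τ1, map_sub, map_pow, map_intCast]
  linear_combination (-(algebraMap ℚ K y) ^ 2) * hq

end field

end Pool.Agent.Helper71.BQ
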